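import Mathlib
import Pool.Agent.H14.GaborDefs
import Pool.Agent.H14.GaborProof

set_option autoImplicit false

open Filter Topology Set MeasureTheory
open scoped ENNReal InnerProductSpace ComplexConjugate

namespace Pool.Agent.Results.MP_6c6e33_an.NoBoundedGabor

/-- No ordering (indexed by `ℕ` or by `ℤ`) of an overcomplete Gabor frame for `L²(ℝ)` has a
representation `{T^k φ}` with a bounded operator `T`. -/
theorem result (a b : ℝ) (_ha : 0 < a) (_hb : 0 < b) (g : L2R)
    (hF : IsOvercompleteFrame (gabor a b g)) :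
    (∀ σ : ℕ ≃ ℤ × ℤ, ¬ HasBoundedRepresentation (fun k : ℕ => gabor a b g (σ k))) ∧
    (∀ σ : ℤ ≃ ℤ × ℤ, ¬ HasBoundedRepresentation (fun k : ℤ => gabor a b g (σ k))) := by
  constructor
  · intro σ
    refine main a b g hF σ (shift_inj (fun k l h => by omega) σ) ?_
    intro K _ hw q hq hK _
    exact off_nat K σ _ hw q hq hK
  · intro σ
    refine main a b g hF σ (shift_inj (fun k l h => by omega) σ) ?_
    intro K _ hw q hq hK hG
    exact off_int K σ _ hw q hq hK hG

end Pool.Agent.Results.MP_6c6e33_an.NoBoundedGabor
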